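import Pool.Agent.Q23.AQ.Sc

/-!
# The power towers `x ^ x`, `x ^ (x ^ x)`, … of `x = c q` at almost all rational numbers `q`

Let `c > 0` be a real number, for instance `c = π`. For a rational number `q > 0` put `x = c q` and `t_0 = x`,
`t_{k+1} = x ^ (t_k)`; for `c = π` and `q = 1` the numbers `t_0`, `t_1`, `t_2` are `π`, `π ^ π` and `π ^ (π ^ π)`. For
all but few rational numbers `q` of `[a, b]` (and for all but few `n`-tuples of them simultaneously) the numbers `π`,
`t_1`, …, `t_s` satisfy no polynomial relation, not even an approximate one, of given degree and polynomially bounded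
height.
-/

set_option autoImplicit false

open Set Filter Topology

namespace Pool.Agent.Results.MP_4c2ad3_nt.PowerTowersOfMultiples

/-- The power towers of `x`: `tower x 0 = x`, `tower x (k + 1) = x ^ (tower x k)`. -/
noncomputable def tower (x : ℝ) : ℕ → ℝ
  | 0 => x
  | k + 1 => x ^ tower x k

/-- The numbers `π` and `tower (c q_j) k`, `j = 1, …, n`, `k = 1, …, s`. -/
noncomputable def values {n s : ℕ} (c : ℝ) (q : Fin n → ℚ) : Option (Fin n × Fin s) → ℝ
  | none => Real.pi
  | some (j, k) => tower (c * q j) (k + 1)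

/-- The `n`-tuples of rational numbers in `[a, b]` with denominators at most `T` for which some nonzero polynomial in
`s n + 1` variables with integer coefficients of absolute value at most `T ^ A`, of degree at most `d` in each
variable, takes at the numbers `values c q` a value of absolute value at most `T ^ (-B)`. -/
def Exceptional (c : ℝ) (n s d : ℕ) (a b A B T : ℝ) : Set (Fin n → ℚ) :=
  {q | (∀ j, a ≤ q j ∧ q j ≤ b ∧ ((q j).den : ℝ) ≤ T) ∧
    ∃ P : MvPolynomial (Option (Fin n × Fin s)) ℤ, P ≠ 0 ∧ (∀ x, P.degreeOf x ≤ d) ∧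
      (∀ c, |((P.coeff c : ℤ) : ℝ)| ≤ T ^ A) ∧ |MvPolynomial.aeval (values c q) P| ≤ T ^ (-B)}

/-- the functions -/
noncomputable def u (c : ℝ) (k : ℕ) (t : ℝ) : ℝ := tower (c * t) k

theorem u_pos {c : ℝ} (hc : 0 < c) (k : ℕ) {t : ℝ} (ht : 0 < t) : 0 < u c k t := by
  have hx : 0 < c * t := mul_pos hc ht
  cases k with
  | zero => exact hx
  | succ k => exact Real.rpow_pos_of_pos hx _

theorem u_log {c : ℝ} (hc : 0 < c) (k : ℕ) {t : ℝ} (ht : 0 < t) :
    Real.log (u c (k + 1) t) = u c k t * Real.log (c * t) := by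
  show Real.log ((c * t) ^ tower (c * t) k) = _
  rw [Real.log_rpow (mul_pos hc ht)]
  rfl

theorem x_top {c : ℝ} (hc : 0 < c) : Tendsto (fun t : ℝ => c * t) atTop atTop := tendsto_id.const_mul_atTop hc

theorem lx_top {c : ℝ} (hc : 0 < c) : Tendsto (fun t : ℝ => Real.log (c * t)) atTop atTop :=
  Real.tendsto_log_atTop.comp (x_top hc)

theorem u_top {c : ℝ} (hc : 0 < c) (k : ℕ) : Tendsto (u c k) atTop atTop := by
  induction k with
  | zero => exact x_top hc
  | succ k ih =>
    refine (Real.tendsto_exp_atTop.comp (ih.atTop_mul_atTop₀ (lx_top hc))).congr' ?_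
    filter_upwards [eventually_gt_atTop 0] with t ht
    simp only [Function.comp]
    rw [← u_log hc k ht, Real.exp_log (u_pos hc _ ht)]

theorem u_an {c : ℝ} (hc : 0 < c) (k : ℕ) {t : ℝ} (ht : 0 < t) : AnalyticAt ℝ (u c k) t := by
  have h0 : AnalyticAt ℝ (fun t : ℝ => c * t) t := analyticAt_const.mul analyticAt_id
  induction k with
  | zero => exact h0
  | succ k ih => exact Q23.AQ.an_rpow h0 ih (mul_pos hc ht)

theorem u_ratio {c : ℝ} (hc : 0 < c) (k : ℕ) : Tendsto (fun t => u c k t / u c (k + 1) t) atTop (𝓝 0) := by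
  have h := (Q23.AQ.pow_div_exp 1).comp (u_top hc k)
  refine squeeze_zero' ?_ ?_ h
  · filter_upwards [eventually_gt_atTop 0] with t ht using (div_pos (u_pos hc k ht) (u_pos hc (k + 1) ht)).le
  filter_upwards [eventually_gt_atTop 0, (lx_top hc).eventually_ge_atTop 1] with t ht ht1
  simp only [Function.comp, pow_one]
  refine div_le_div_of_nonneg_left (u_pos hc k ht).le (Real.exp_pos _) ?_
  rw [← Real.exp_log (u_pos hc (k + 1) ht), Real.exp_le_exp, u_log hc k ht]
  exact le_mul_of_one_le_right (u_pos hc k ht).le ht1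

/-- the scale -/
noncomputable def L (c : ℝ) {s : ℕ} (l : Fin (s + 1)) (t : ℝ) : ℝ :=
  if (l : ℕ) < s then u c (s - 1 - l) t * Real.log (c * t) else Real.log t

theorem scales {c : ℝ} (hc : 0 < c) (s : ℕ) : Q23.AQ.Scales (L c (s := s)) := by
  refine Q23.AQ.scales_fin _ ?_ ?_
  · intro l
    unfold L
    split_ifs with h
    · exact (u_top hc _).atTop_mul_atTop₀ (lx_top hc)
    · exact Real.tendsto_log_atTop
  · intro i h
    have hi : i < s := by omega
    unfold L
    simp only [hi, if_true]
    by_cases h2 : i + 1 < s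
    · simp only [h2, if_true]
      have h3 : s - 1 - i = (s - 1 - (i + 1)) + 1 := by omega
      rw [h3]
      refine (u_ratio hc (s - 1 - (i + 1))).congr' ?_
      filter_upwards [eventually_gt_atTop 0, (lx_top hc).eventually_gt_atTop 0] with t ht ht1
      have := (u_pos hc (s - 1 - (i + 1) + 1) ht).ne'
      field_simp
    · simp only [h2, if_false]
      have h3 : s - 1 - i = 0 := by omega
      rw [h3]
      have h4 := (Q23.AQ.log_div_id.mul ((lx_top hc).inv_tendsto_atTop)).const_mul c⁻¹
      simp only [mul_zero] at h4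
      refine h4.congr' ?_
      filter_upwards [eventually_gt_atTop 0, (lx_top hc).eventually_gt_atTop 0] with t ht ht1
      show c⁻¹ * (Real.log t / t * (Real.log (c * t))⁻¹) = Real.log t / (c * t * Real.log (c * t))
      field_simp

/-- Let `c > 0`, `0 < a < b`, let `n ≥ 1`, `s`, `d` and `A ≥ 0` be given and let `β > 2 - 2 / ((d + 1)^(s n + 1) + 1)`.
There are `B` and `C` such that for all `T ≥ 1` the number of exceptional `n`-tuples is at most
`C T^(2 (n - 1) + β)` (whereas the number of all `n`-tuples of rational numbers in `[a, b]` with denominators at most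
`T` is about `T ^ (2 n)`). -/
theorem result (c : ℝ) (hc : 0 < c) (n s d : ℕ) (hn : 1 ≤ n) (a b : ℝ) (ha : 0 < a) (hab : a < b) (A β : ℝ)
    (hA : 0 ≤ A) (hβ : 2 - 2 / (((d : ℝ) + 1) ^ (s * n + 1) + 1) < β) :
    ∃ B C : ℝ, ∀ T : ℝ, 1 ≤ T → (Exceptional c n s d a b A B T).Finite ∧
      ((Exceptional c n s d a b A B T).ncard : ℝ) ≤ C * T ^ (2 * ((n : ℝ) - 1) + β) := by
  have hind := Q23.AQ.rind (d := d) (fun k : Fin s => u c (k + 1)) (L c) (scales hc s) (Fin.last s)
    (Eventually.of_forall fun t => by simp [L])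
    (fun k l => if (l : ℕ) + k + 1 = s then 1 else 0) (fun _ _ => 0)
    (fun k => by filter_upwards [eventually_gt_atTop 0] with t ht using u_pos hc _ ht)
    (fun k => by
      filter_upwards [eventually_gt_atTop 0] with t ht
      rw [add_zero]
      have hk := k.2
      rw [Finset.sum_eq_single (⟨s - 1 - k, by omega⟩ : Fin (s + 1))]
      · have h1 : s - 1 - (k : ℕ) + k + 1 = s := by omega
        have h2 : s - 1 - (k : ℕ) < s := by omega
        have h3 : s - 1 - (s - 1 - (k : ℕ)) = k := by omega
        simp only [h1, if_true, L, h2, h3, one_mul]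
        exact u_log hc k ht
      · intro l _ hl
        have h1 : ¬ ((l : ℕ) + k + 1 = s) := fun h => hl (Fin.ext (by simp; omega))
        simp only [h1, if_false, zero_mul]
      · intro h
        exact absurd (Finset.mem_univ _) h)
    (fun k l => by simp)
    (by
      intro m r h
      funext k
      have hk := k.2
      have h1 := h ⟨s - 1 - k, by omega⟩
      rw [Finset.sum_eq_single k] at h1
      · have h2 : s - 1 - (k : ℕ) + k + 1 = s := by omega
        have h3 : ¬ ((⟨s - 1 - (k : ℕ), by omega⟩ : Fin (s + 1)) = Fin.last s) := by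
          intro h4
          have := congrArg Fin.val h4
          simp at this
          omega
        simp only [h2, if_true, mul_one, h3, if_false] at h1
        exact_mod_cast h1
      · intro l _ hl
        have h4 : ¬ (s - 1 - (k : ℕ) + (l : ℕ) + 1 = s) := fun h5 => hl (Fin.ext (by omega))
        simp only [h4, if_false, mul_zero]
      · intro h5
        exact absurd (Finset.mem_univ _) h5)
    a b hab (fun k t ht => u_an hc _ (ha.trans_le ht))
  obtain ⟨B, C, h⟩ := TH659.AQ.polysR (n := n) (d := d) (fun k : Fin s => u c (k + 1)) a b hab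
    (fun k t ht => u_an hc _ (ha.trans_le ht.1)) hind hn A β hA (by rw [Fintype.card_fin]; exact hβ)
  refine ⟨B, C, fun T hT => ?_⟩
  have hv : ∀ q : Fin n → ℚ, values (s := s) c q = TH659.AQ.vR (fun k : Fin s => u c (k + 1)) q := by
    intro q
    funext x
    rcases x with _ | ⟨j, k⟩ <;> rfl
  have hE : Exceptional c n s d a b A B T = TH659.AQ.ExR d (fun k : Fin s => u c (k + 1)) a b A B T := by
    ext q
    simp only [Exceptional, TH659.AQ.ExR, hv]
  rw [hE]
  exact h T hT

end Pool.Agent.Results.MP_4c2ad3_nt.PowerTowersOfMultiples
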