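import Mathlib
import Pool.Agent.Q29.EqRatPts
import Pool.Agent.Results.MP_4c2ad3_nt.PowerTowersOfMultiples

/-!
# Uniform distribution of the multiples of the power towers of `π q` at almost all rational numbers `q`

Let `c > 0` be a real number, for instance `c = π`. For a rational number `q > 0` put `x = c q` and consider the numbers `π`,
`x ^ x`, `x ^ (x ^ x)`, …. For `n`-tuples of rational numbers in an interval, with denominators at most `T`, with the
exception of few tuples, the multiples of every vector of different nonconstant monomials in these numbers, of bounded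
degree, by the integers up to `M`, by their powers and by the primes up to `M` in residue classes are jointly uniformly
distributed modulo one with a power saving, for all `M` between `T ^ B` and `T ^ E`, where `B` does not depend on `E`. If the
numbers satisfied a polynomial relation with small coefficients, this would not be the case.

The proof uses the bound for the number of the rational points with approximate polynomial relations (`PowerTowersOfMultiples`, by the
starting file `TH659/AQ`), an inverse theorem for the sums of Weyl and a form of the estimate of Vinogradov for the sums over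
primes with a power saving (`H373R2/NB`, `W110/HV`).
-/

set_option autoImplicit false

namespace Pool.Agent.Results.MP_4c2ad3_nt.MultiplesAtRationals

open Finset Polynomial
open Pool.Agent.Results.MP_4c2ad3_nt.PowerTowersOfMultiples (values)

/-- The points `y n ∈ ℝ ^ s`, `n ∈ S`, are uniformly distributed modulo one with error `E` in the cubes of side `1 / q`,
`q ≤ Q`. -/
def Equi {s : ℕ} (S : Finset ℕ) (y : ℕ → Fin s → ℝ) (Q E : ℝ) : Prop :=
  ∀ q : ℕ, 1 ≤ q → (q : ℝ) ≤ Q → ∀ ρ : Fin s → ℤ, (∀ j, 0 ≤ ρ j ∧ ρ j < q) →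
    |((S.filter fun n => ∀ j, (ρ j : ℝ) / q ≤ Int.fract (y n j) ∧ Int.fract (y n j) < (ρ j + 1) / q).card : ℝ) -
      S.card / (q : ℝ) ^ s| ≤ E

/-- The multiples of the vector `x` are uniformly distributed modulo one at the scale `M`, with a power saving, along all
polynomials of degree `k ≤ K` (the points `x n ^ k + R(n)`, `0 ≤ n < M`, `R` a vector of real polynomials of degree less
than `k`), and along the primes in all residue classes modulo `d ≤ M ^ κ` (the points `x p + β`, `p ≤ M` prime,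
`p ≡ r (mod d)`). -/
def Joint (κ : ℝ) (K M : ℕ) {s : ℕ} (x : Fin s → ℝ) : Prop :=
  (∀ k : ℕ, 1 ≤ k → k ≤ K → ∀ R : Fin s → ℝ[X], (∀ j, (R j).degree < k) →
    Equi (range M) (fun n j => x j * (n : ℝ) ^ k + (R j).eval (n : ℝ)) ((M : ℝ) ^ κ) ((M : ℝ) ^ (1 - κ))) ∧
  (∀ d r : ℕ, 1 ≤ d → (d : ℝ) ≤ (M : ℝ) ^ κ → ∀ β : Fin s → ℝ,
    Equi ((range (M + 1)).filter fun p => p.Prime ∧ p ≡ r [MOD d]) (fun p j => x j * p + β j) ((M : ℝ) ^ κ)
      ((M : ℝ) ^ (1 - κ)))

theorem joint_iff (κ : ℝ) (K M : ℕ) {s : ℕ} (x : Fin s → ℝ) : Joint κ K M x ↔ Pool.Agent.Q29.Eqd.Joint κ K M x :=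
  Iff.rfl

/-- The `n`-tuples of rational numbers in `[a, b]` with denominators at most `T` such that for some `M` between `T ^ B` and
`T ^ E` the multiples of the vector of the monomials, with the exponents `f k`, in the numbers `values` are not jointly
uniformly distributed at the scale `M`. -/
def Bad {n m : ℕ} {ι : Type} [Fintype ι] (val : (Fin n → ℚ) → ι → ℝ) (lo hi : ℝ) (f : Fin m → ι → ℕ) (κ : ℝ) (K : ℕ)
    (B E T : ℝ) : Set (Fin n → ℚ) :=
  {q | (∀ j, lo ≤ q j ∧ (q j : ℝ) ≤ hi ∧ ((q j).den : ℝ) ≤ T) ∧ ∃ M : ℕ, T ^ B ≤ (M : ℝ) ∧ (M : ℝ) ≤ T ^ E ∧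
    ¬ Joint κ K M (fun k => ∏ i, val q i ^ f k i)}

theorem result (c : ℝ) (hc : 0 < c) (n s d : ℕ) (hn : 1 ≤ n) (a b : ℝ) (ha : 0 < a) (hab : a < b) (β : ℝ)
    (hβ : 2 - 2 / (((d : ℝ) + 1) ^ (s * n + 1) + 1) < β) :
    ∃ B : ℝ, 1 ≤ B ∧ ∀ (m : ℕ) (f : Fin m → Option (Fin n × Fin s) → ℕ), 1 ≤ m → Function.Injective f →
      (∀ k, f k ≠ 0) → (∀ k i, f k i ≤ d) → ∀ (K : ℕ) (E : ℝ), ∃ κ C : ℝ, 0 < κ ∧ ∀ T : ℝ, 1 ≤ T →
        (Bad (values (s := s) c (n := n)) a b f κ K B E T).Finite ∧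
        ((Bad (values (s := s) c (n := n)) a b f κ K B E T).ncard : ℝ) ≤ C * T ^ (2 * ((n : ℝ) - 1) + β) := by
  have hγ : 0 ≤ 2 * ((n : ℝ) - 1) + β := by
    have h1 : (1 : ℝ) ≤ n := by exact_mod_cast hn
    have h2 : 2 / (((d : ℝ) + 1) ^ (s * n + 1) + 1) ≤ 2 := by
      rw [div_le_iff₀ (by positivity)]
      have : (0 : ℝ) ≤ ((d : ℝ) + 1) ^ (s * n + 1) := by positivity
      linarith
    linarith
  obtain ⟨X, hX0⟩ := Pool.Agent.Q29.Eqd.vR_bound (n := n)
    (fun k : Fin s => Pool.Agent.Results.MP_4c2ad3_nt.PowerTowersOfMultiples.u c (k + 1)) a b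
    (fun k t ht => (Pool.Agent.Results.MP_4c2ad3_nt.PowerTowersOfMultiples.u_an hc _
      (ha.trans_le ht.1)).continuousAt.continuousWithinAt)
  have hX : ∀ q : Fin n → ℚ, (∀ j, a ≤ q j ∧ (q j : ℝ) ≤ b) → ∀ i, |values (s := s) c q i| ≤ X := by
    intro q hq i
    have hv : values (s := s) c q = Pool.Agent.TH659.AQ.vR
        (fun k : Fin s => Pool.Agent.Results.MP_4c2ad3_nt.PowerTowersOfMultiples.u c (k + 1)) q := by
      funext x
      rcases x with _ | ⟨j, k⟩ <;> rfl
    rw [hv]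
    exact hX0 q hq i
  obtain ⟨B₀, C₀, h⟩ := Pool.Agent.Results.MP_4c2ad3_nt.PowerTowersOfMultiples.result c hc n s d hn a b ha hab 1 β zero_le_one hβ
  obtain ⟨B, hB, h2⟩ := Pool.Agent.Q29.Eqd.rat_joint (values (s := s) c (n := n)) d a b X _ hX hγ ⟨B₀, C₀, fun T hT => h T hT⟩
  refine ⟨B, hB, fun m f hm hf hf0 hd K E => ?_⟩
  obtain ⟨κ, C, hκ, h3⟩ := h2 m f hm hf hf0 hd K E
  exact ⟨κ, C, hκ, fun T hT => h3 T hT⟩

end Pool.Agent.Results.MP_4c2ad3_nt.MultiplesAtRationals
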