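import Pool.Agent.Q23.MV.TowMV

/-!
# Towers of several independent algebraic multiples of `π`

The number `π^π` is the value at `q = r = 1` of `(π q)^(π r)`. We consider all towers
`y_(i_1)^(y_(i_2)^(…^y_(i_n)))` of height `2 ≤ n ≤ N` whose entries are taken (in any order, repetitions allowed) from
`y_1 = π q_1, …, y_r = π q_r`. For points `q` with coordinates in number fields of bounded degree and of height at most `T`,
outside at most `C T^ε` hypersurfaces of bounded degree, all these towers satisfy no polynomial relation of bounded degree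
and polynomially bounded height, even with arbitrary constants.
-/

set_option autoImplicit false

open Set Filter Topology NumberField

namespace Pool.Agent.Results.MP_4c2ad3_nt.TowersOfIndependentMultiples

/-- For every compact subset `L` of `U` and all `m`, `g`, `d`, `A` and `ε > 0` there are `D`, `C`, `T₀` such that for every
number field `F` of degree at most `m`, every embedding `ι` of `F` in `ℂ`, all complex numbers `ξ_1, …, ξ_g` and all
`T ≥ T₀` there are at most `C T^ε` hypersurfaces `Q = 0` of degree at most `D` with the following property. If `x` is a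
point with coordinates in `F` outside these hypersurfaces, with image in `L`, whose coordinates are quotients of two
integers of `F` all of whose conjugates have absolute value at most `T`, then no nonzero polynomial `P` of degree at most
`d` in each variable, with coefficients of the form `∑ ξ_a ι(c_a)`, where the `c_a` are integers of `F` all of whose
conjugates have absolute value at most `T ^ A`, vanishes at the numbers `f y (ι x)`. -/
def FewRelations {X κ : Type} [Fintype X] (U : Set (X → ℂ)) (f : κ → (X → ℂ) → ℂ) : Prop :=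
  ∀ L : Set (X → ℂ), IsCompact L → L ⊆ U → ∀ (m g d : ℕ) (A ε : ℝ), 0 < ε →
    ∃ (D : ℕ) (C T₀ : ℝ), ∀ (F : Type) [Field F] [NumberField F], Module.finrank ℚ F ≤ m → ∀ (ι : F →+* ℂ)
      (ξ : Fin g → ℂ) (T : ℝ), T₀ ≤ T → ∃ Φ : Finset (MvPolynomial X ℂ), (Φ.card : ℝ) ≤ C * T ^ ε ∧
        (∀ Q ∈ Φ, Q ≠ 0 ∧ Q.totalDegree ≤ D) ∧
        ∀ x : X → F, (fun j => ι (x j)) ∈ L →
          (∀ j, ∃ a b : 𝓞 F, b ≠ 0 ∧ (∀ φ : F →+* ℂ, ‖φ a‖ ≤ T ∧ ‖φ b‖ ≤ T) ∧ x j = a / b) →
          (∀ Q ∈ Φ, MvPolynomial.eval (fun j => ι (x j)) Q ≠ 0) →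
          ∀ P : MvPolynomial κ ℂ, P ≠ 0 → (∀ y, P.degreeOf y ≤ d) →
            (∀ s, ∃ c : Fin g → 𝓞 F, (∀ a (φ : F →+* ℂ), ‖φ (c a)‖ ≤ T ^ A) ∧ P.coeff s = ∑ a, ξ a * ι (c a)) →
            MvPolynomial.aeval (fun y => f y (fun j => ι (x j))) P ≠ 0

/-- The same for the numbers `θ ι(x_j)` and `f y (ι x)` together, and for polynomials whose coefficients are integers of `F`
all of whose conjugates have absolute value at most `T ^ A`. -/
def FewRelationsWith {X κ : Type} [Fintype X] (U : Set (X → ℂ)) (θ : ℂ) (j : X) (f : κ → (X → ℂ) → ℂ) : Prop :=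
  ∀ L : Set (X → ℂ), IsCompact L → L ⊆ U → ∀ (m d : ℕ) (A ε : ℝ), 0 < ε →
    ∃ (D : ℕ) (C T₀ : ℝ), ∀ (F : Type) [Field F] [NumberField F], Module.finrank ℚ F ≤ m → ∀ (ι : F →+* ℂ)
      (T : ℝ), T₀ ≤ T → ∃ Φ : Finset (MvPolynomial X ℂ), (Φ.card : ℝ) ≤ C * T ^ ε ∧
        (∀ Q ∈ Φ, Q ≠ 0 ∧ Q.totalDegree ≤ D) ∧
        ∀ x : X → F, (fun j => ι (x j)) ∈ L →
          (∀ j, ∃ a b : 𝓞 F, b ≠ 0 ∧ (∀ φ : F →+* ℂ, ‖φ a‖ ≤ T ∧ ‖φ b‖ ≤ T) ∧ x j = a / b) →
          (∀ Q ∈ Φ, MvPolynomial.eval (fun j => ι (x j)) Q ≠ 0) →
          ∀ P : MvPolynomial (Option κ) (𝓞 F), P ≠ 0 → (∀ y, P.degreeOf y ≤ d) →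
            (∀ s (φ : F →+* ℂ), ‖φ ((P.coeff s : 𝓞 F) : F)‖ ≤ T ^ A) →
            MvPolynomial.eval₂ (ι.comp (algebraMap (𝓞 F) F))
              (fun o => o.elim (θ * ι (x j)) fun y => f y (fun j => ι (x j))) P ≠ 0

/-- The tower `y_(i_1)^(y_(i_2)^(…^y_(i_n)))` of the word `i_1 i_2 … i_n`, where `y_j = π q_j` and `x^y = exp(y log x)` with
the principal logarithm (the empty word has value `1`). -/
noncomputable def tower {X : Type} (q : X → ℂ) : List X → ℂ
  | [] => 1
  | j :: v => Complex.exp (Complex.log (Real.pi * q j) * tower q v)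

/-- The words with at least two and at most `N` letters. -/
abbrev Words (X : Type) (N : ℕ) : Type := {v : List X // 2 ≤ v.length ∧ v.length ≤ N}

theorem tower_eq {X : Type} (x : X → ℂ) (v : List X) :
    tower x v = Q23.MV.TC (fun j => Complex.log ((Real.pi : ℂ) * x j)) v := by
  induction v with
  | nil => rfl
  | cons j v ih =>
    rw [tower, Q23.MV.TC, ih]

/-- The coordinates are outside the negative real axis (and `0`). -/
def dom (X : Type) : Set (X → ℂ) := {x | ∀ j, x j ∈ Complex.slitPlane}

theorem main : ∀ (X : Type) [Fintype X] [Nonempty X] (N : ℕ),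
    FewRelations (dom X) (fun (v : Words X N) (q : X → ℂ) => tower q v.1) := by
  classical
  intro X _ _ N L hL hLU m g d A ε hε
  haveI : Finite (Words X N) := by
    refine Set.Finite.to_subtype ((List.finite_length_le X N).subset ?_)
    intro v hv
    exact hv.2
  have H := Q23.MV.fewA (X := X) (fun _ => Real.pi) (fun _ => Real.pi_pos) (κ := Words X N) (fun v => v.1)
    Subtype.val_injective (fun v => v.2.1) L hL (fun x hx => hLU hx) m g d A ε hε
  simp only [← tower_eq] at H
  exact H

/-- For every finite set of variables `q_j` and every `N` there are few relations between all towers with at least two and at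
most `N` entries taken from the numbers `π q_j`, and few relations with integer coefficients from the number field between
these towers and one of the numbers `π q_j`. -/
theorem result : ∀ (X : Type) [Fintype X] [Nonempty X] (N : ℕ),
    FewRelations (dom X) (fun (v : Words X N) (q : X → ℂ) => tower q v.1) ∧
      ∀ j : X, FewRelationsWith (dom X) Real.pi j (fun (v : Words X N) (q : X → ℂ) => tower q v.1) := by
  classical
  intro X _ _ N
  have h1 := main X N
  refine ⟨h1, fun j L hL hLU m d A ε hε => ?_⟩
  haveI : Finite (Words X N) := by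
    refine Set.Finite.to_subtype ((List.finite_length_le X N).subset ?_)
    intro v hv
    exact hv.2
  haveI : Fintype (Words X N) := Fintype.ofFinite _
  exact Q23.MV.few_lin (fun (v : Words X N) (q : X → ℂ) => tower q v.1) L j
    (fun x hx => Complex.slitPlane_ne_zero (hLU hx j)) Real.pi
    H340R2.LW.transcendental_pi_complex m d A ε (h1 L hL hLU m (d + 1) d (A + d) ε hε)

end Pool.Agent.Results.MP_4c2ad3_nt.TowersOfIndependentMultiples
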